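import Mathlib

/-!
# `L¹` continuity of dilations of `ℝ³`
-/

set_option autoImplicit false

open MeasureTheory Filter Topology Set

namespace Pool.Agent.J6H92.BG

/-- the `L¹` distance of `u` and its dilation -/
noncomputable def DD (u : (Fin 3 → ℝ) → ℝ) (s : ℝ) : ℝ := ∫ y, |s ^ 3 * u (s • y) - u y|

theorem int_dil {s : ℝ} (hs : 0 < s) (f : (Fin 3 → ℝ) → ℝ) :
    ∫ y, f (s • y) = (s ^ 3)⁻¹ * ∫ y, f y := by
  have h := Measure.integral_comp_smul (volume : Measure (Fin 3 → ℝ)) f s
  rw [h, Module.finrank_fintype_fun_eq_card, Fintype.card_fin, abs_of_pos (by positivity),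
    smul_eq_mul]

theorem integrable_dil {s : ℝ} (hs : 0 < s) {f : (Fin 3 → ℝ) → ℝ} (hf : Integrable f) :
    Integrable fun y => f (s • y) :=
  (integrable_comp_smul_iff volume f hs.ne').2 hf

theorem DD_cont_comp {φ : (Fin 3 → ℝ) → ℝ} (hc : Continuous φ) (hs : HasCompactSupport φ) :
    Tendsto (DD φ) (𝓝 1) (𝓝 0) := by
  obtain ⟨M, hM⟩ := hc.bounded_above_of_compact_support hs
  obtain ⟨r, hr⟩ : ∃ r : ℝ, ∀ y, r < ‖y‖ → φ y = 0 := by
    obtain ⟨r, hr⟩ := hs.isCompact.isBounded.subset_closedBall (0 : Fin 3 → ℝ)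
    refine ⟨r, fun y hy => ?_⟩
    by_contra h
    have := hr (subset_tsupport φ h)
    rw [mem_closedBall_zero_iff] at this
    linarith
  have hM0 : 0 ≤ M := (norm_nonneg _).trans (hM 0)
  have hr' : ∀ y, max r 0 < ‖y‖ → φ y = 0 := fun y hy => hr y ((le_max_left _ _).trans_lt hy)
  obtain ⟨ρ, hρ⟩ : ∃ ρ, ρ = max r 0 := ⟨_, rfl⟩
  have hρ0 : 0 ≤ ρ := by rw [hρ]; exact le_max_right _ _
  rw [← hρ] at hr'
  have key : Tendsto (fun s : ℝ => ∫ y, |s ^ 3 * φ (s • y) - φ y|) (𝓝 1)
      (𝓝 (∫ _ : Fin 3 → ℝ, (0 : ℝ))) := by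
    refine tendsto_integral_filter_of_dominated_convergence
      ((Metric.closedBall (0 : Fin 3 → ℝ) (2 * ρ)).indicator fun _ => 9 * M) ?_ ?_ ?_ ?_
    · refine Eventually.of_forall fun s => ?_
      exact (((continuous_const.mul (hc.comp (continuous_const_smul s))).sub hc).abs).aestronglyMeasurable
    · filter_upwards [Ioo_mem_nhds (show (1 / 2 : ℝ) < 1 by norm_num) (show (1 : ℝ) < 2 by norm_num)]
        with s hs
      refine ae_of_all _ fun y => ?_
      rw [Real.norm_eq_abs, abs_abs]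
      by_cases hy : ‖y‖ ≤ 2 * ρ
      · rw [indicator_of_mem (by rwa [mem_closedBall_zero_iff])]
        have h1 : s ^ 3 ≤ 8 := by
          have := pow_le_pow_left₀ (by linarith [hs.1] : (0 : ℝ) ≤ s) hs.2.le 3
          linarith
        have h0 : 0 < s := by linarith [hs.1]
        have h2 : |s ^ 3 * φ (s • y)| ≤ 8 * M := by
          rw [abs_mul, abs_of_pos (by positivity)]
          exact mul_le_mul h1 (hM _) (abs_nonneg _) (by norm_num)
        have h3 : |φ y| ≤ M := hM y
        have h4 := abs_sub (s ^ 3 * φ (s • y)) (φ y)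
        linarith
      · push Not at hy
        rw [indicator_of_notMem (by rw [mem_closedBall_zero_iff]; linarith)]
        have h0 : 0 < s := by linarith [hs.1]
        have h1 : φ (s • y) = 0 := by
          apply hr'
          rw [norm_smul, Real.norm_eq_abs, abs_of_pos h0]
          nlinarith [hs.1]
        have h2 : φ y = 0 := hr' y (by linarith)
        rw [h1, h2]
        simp
    · rw [integrable_indicator_iff Metric.isClosed_closedBall.measurableSet]
      exact integrableOn_const (ProperSpace.isCompact_closedBall _ _).measure_lt_top.ne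
    · refine ae_of_all _ fun y => ?_
      have h : Continuous fun s : ℝ => |s ^ 3 * φ (s • y) - φ y| :=
        (((continuous_id.pow 3).mul (hc.comp (continuous_id.smul continuous_const))).sub
          continuous_const).abs
      have h2 := h.tendsto 1
      simpa using h2
  rw [integral_zero] at key
  exact key

/-- **`L¹` continuity of dilations** -/
theorem DD_tendsto {u : (Fin 3 → ℝ) → ℝ} (hu : Integrable u) : Tendsto (DD u) (𝓝 1) (𝓝 0) := by
  rw [Metric.tendsto_nhds]
  intro ε hε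
  obtain ⟨φ, hφs, hφd, hφc, hφi⟩ := hu.exists_hasCompactSupport_integral_sub_le
    (show 0 < ε / 4 by positivity)
  have h1 := DD_cont_comp hφc hφs
  rw [Metric.tendsto_nhds] at h1
  filter_upwards [h1 (ε / 4) (by positivity),
    Ioo_mem_nhds (show (1 / 2 : ℝ) < 1 by norm_num) (show (1 : ℝ) < 2 by norm_num)] with s h2 hs
  have h0 : 0 < s := by linarith [hs.1]
  have hnn : ∀ f : (Fin 3 → ℝ) → ℝ, 0 ≤ DD f s := fun f => integral_nonneg fun y => abs_nonneg _
  rw [Real.dist_eq, sub_zero, abs_of_nonneg (hnn _)] at h2 ⊢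
  have iu := (integrable_dil h0 hu).const_mul (s ^ 3)
  have iφ := (integrable_dil h0 hφi).const_mul (s ^ 3)
  have e1 : ∫ y, |s ^ 3 * u (s • y) - s ^ 3 * φ (s • y)| ≤ ε / 4 := by
    have : (fun y => |s ^ 3 * u (s • y) - s ^ 3 * φ (s • y)|) =
        fun y => s ^ 3 * (fun z => ‖u z - φ z‖) (s • y) := by
      funext y
      simp only []
      rw [← mul_sub, abs_mul, abs_of_pos (by positivity), Real.norm_eq_abs]
    rw [this, integral_const_mul, int_dil h0 (fun z => ‖u z - φ z‖), ← mul_assoc,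
      mul_inv_cancel₀ (by positivity), one_mul]
    exact hφd
  have e2 : ∫ y, |φ y - u y| ≤ ε / 4 := by
    have : (fun y => |φ y - u y|) = fun y => ‖u y - φ y‖ := by
      funext y
      rw [Real.norm_eq_abs, abs_sub_comm]
    rw [this]
    exact hφd
  have e3 : DD u s ≤ (∫ y, |s ^ 3 * u (s • y) - s ^ 3 * φ (s • y)|) + DD φ s + ∫ y, |φ y - u y| := by
    unfold DD
    have i1 : Integrable (fun y => |s ^ 3 * u (s • y) - s ^ 3 * φ (s • y)|) := (iu.sub iφ).abs
    have i2 : Integrable (fun y => |s ^ 3 * φ (s • y) - φ y|) := (iφ.sub hφi).abs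
    have i3 : Integrable (fun y => |φ y - u y|) := (hφi.sub hu).abs
    have i4 : Integrable (fun y => |s ^ 3 * u (s • y) - u y|) := (iu.sub hu).abs
    have i12 : Integrable (fun y => |s ^ 3 * u (s • y) - s ^ 3 * φ (s • y)| +
      |s ^ 3 * φ (s • y) - φ y|) := i1.add i2
    rw [← integral_add i1 i2, ← integral_add i12 i3]
    refine integral_mono i4 (i12.add i3) fun y => ?_
    have a1 := abs_add_le (s ^ 3 * u (s • y) - s ^ 3 * φ (s • y)) (s ^ 3 * φ (s • y) - φ y)
    have a2 := abs_add_le (s ^ 3 * u (s • y) - s ^ 3 * φ (s • y) + (s ^ 3 * φ (s • y) - φ y)) (φ y - u y)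
    have a3 : s ^ 3 * u (s • y) - u y = s ^ 3 * u (s • y) - s ^ 3 * φ (s • y) +
        (s ^ 3 * φ (s • y) - φ y) + (φ y - u y) := by ring
    simp only []
    rw [a3]
    linarith
  linarith

end Pool.Agent.J6H92.BG
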