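import Pool.Agent.J6H80.BG.Stm4
import Pool.Agent.J6H92.BG.Dil

/-!
# BG-HC: the scattering length of a hard core plus an integrable potential
-/

set_option autoImplicit false

open MeasureTheory Filter Topology Set
open scoped ENNReal ContDiff

namespace Pool.Agent.J6H92.BG

open Pool.Agent.J6H80.BG

noncomputable section

/-- the square of the gradient -/
def gs (f : (Fin 3 → ℝ) → ℝ) (x : Fin 3 → ℝ) : ℝ := ∑ a, (fderiv ℝ f x (Pi.single a 1)) ^ 2

theorem gs_nonneg (f : (Fin 3 → ℝ) → ℝ) (x : Fin 3 → ℝ) : 0 ≤ gs f x :=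
  Finset.sum_nonneg fun _ _ => sq_nonneg _

theorem test_gs_int {f : (Fin 3 → ℝ) → ℝ} (hf : IsTest f) : Integrable (gs f) := by
  obtain ⟨hs, r, hr⟩ := hf
  have hc : Continuous (gs f) := by
    unfold gs
    refine continuous_finsetSum _ fun a _ => ?_
    exact ((hs.continuous_fderiv (by simp)).clm_apply continuous_const).pow 2
  refine hc.integrable_of_hasCompactSupport (HasCompactSupport.intro
    (isCompact_closedBall (0 : Fin 3 → ℝ) r) fun x hx => ?_)
  rw [mem_closedBall_zero_iff, not_le] at hx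
  have ho : IsOpen {y : Fin 3 → ℝ | r < ‖y‖} := isOpen_lt continuous_const continuous_norm
  have h : f =ᶠ[𝓝 x] fun _ => 1 := by
    filter_upwards [ho.mem_nhds hx] with y hy
    exact hr y hy
  unfold gs
  rw [h.fderiv_eq]
  simp

theorem test_bdd {f : (Fin 3 → ℝ) → ℝ} (hf : IsTest f) : ∃ C : ℝ, ∀ x, |f x| ≤ C := by
  obtain ⟨hs, r, hr⟩ := hf
  have h1 : Continuous fun x => f x - 1 := hs.continuous.sub continuous_const
  obtain ⟨C, hC⟩ := h1.bounded_above_of_compact_support (HasCompactSupport.intro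
    (isCompact_closedBall (0 : Fin 3 → ℝ) r) fun x hx => by
      rw [mem_closedBall_zero_iff, not_le] at hx
      rw [hr x hx, sub_self])
  refine ⟨C + 1, fun x => ?_⟩
  have h2 := hC x
  rw [Real.norm_eq_abs, abs_le] at h2
  rw [abs_le]
  constructor <;> linarith [h2.1, h2.2]

theorem pot_int {w g : (Fin 3 → ℝ) → ℝ} (hw : Integrable w) (hg : Continuous g) {C : ℝ}
    (hC : ∀ x, |g x| ≤ C) : Integrable fun x => w x * g x ^ 2 := by
  refine (hw.norm.const_mul (C ^ 2)).mono' (hw.aestronglyMeasurable.mul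
    (hg.pow 2).aestronglyMeasurable) (ae_of_all _ fun x => ?_)
  rw [norm_mul, mul_comm, Real.norm_eq_abs (g x ^ 2), abs_of_nonneg (sq_nonneg _)]
  refine mul_le_mul_of_nonneg_right ?_ (norm_nonneg _)
  rw [← sq_abs (g x)]
  exact pow_le_pow_left₀ (abs_nonneg _) (hC x) 2

theorem dirE_split {m : ℝ} {w f : (Fin 3 → ℝ) → ℝ} (hw : Integrable w) (hf : IsTest f) :
    dirE m w f = 1 / m * (∫ x, gs f x) + ∫ x, w x * f x ^ 2 := by
  obtain ⟨C, hC⟩ := test_bdd hf
  rw [← integral_const_mul, ← integral_add ((test_gs_int hf).const_mul _)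
    (pot_int hw hf.1.continuous hC)]
  rfl

theorem dirE_nn {m : ℝ} (hm : 0 < m) {v : (Fin 3 → ℝ) → ℝ} (h0 : ∀ x, 0 ≤ v x)
    (f : (Fin 3 → ℝ) → ℝ) : 0 ≤ dirE m v f := by
  unfold dirE
  refine integral_nonneg fun x => ?_
  have := h0 x
  simp only [Pi.zero_apply]
  positivity

theorem test_one : IsTest (fun _ => 1) := ⟨contDiff_const, 0, fun _ _ => rfl⟩

theorem yng {α p q : ℝ} (hα : 0 < α) :
    (p + q) ^ 2 ≤ (1 + α) * p ^ 2 + (1 + 1 / α) * q ^ 2 := by
  have h : (1 + α) * p ^ 2 + (1 + 1 / α) * q ^ 2 - (p + q) ^ 2 = (α * p - q) ^ 2 / α := by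
    field_simp
    ring
  have h2 : 0 ≤ (α * p - q) ^ 2 / α := by positivity
  linarith

/-! ### truncation -/

/-- a smooth bounded truncation -/
def gt (c : ℝ) (f : (Fin 3 → ℝ) → ℝ) (x : Fin 3 → ℝ) : ℝ := Real.sin (c * f x) / Real.sin c

theorem gt_test {c : ℝ} (hc : 0 < Real.sin c) {f : (Fin 3 → ℝ) → ℝ} (hf : IsTest f) :
    IsTest (gt c f) := by
  obtain ⟨hs, r, hr⟩ := hf
  refine ⟨((contDiff_const.mul hs).sin).div_const _, r, fun x hx => ?_⟩
  unfold gt
  rw [hr x hx, mul_one, div_self hc.ne']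

theorem gt_bdd {c : ℝ} (hc : 0 < Real.sin c) (f : (Fin 3 → ℝ) → ℝ) (x : Fin 3 → ℝ) :
    |gt c f x| ≤ 1 / Real.sin c := by
  unfold gt
  rw [abs_div, abs_of_pos hc]
  exact div_le_div_of_nonneg_right (Real.abs_sin_le_one _) hc.le

theorem gt_sq {c : ℝ} (hc : 0 < Real.sin c) (f : (Fin 3 → ℝ) → ℝ) (x : Fin 3 → ℝ) :
    gt c f x ^ 2 ≤ (c / Real.sin c) ^ 2 * f x ^ 2 := by
  unfold gt
  have h := Real.sin_sq_le_sq (x := c * f x)
  rw [div_pow, div_pow, div_mul_eq_mul_div]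
  refine div_le_div_of_nonneg_right ?_ (by positivity)
  rw [← mul_pow]
  exact h

theorem gt_gs {c : ℝ} {f : (Fin 3 → ℝ) → ℝ} (hf : IsTest f)
    (x : Fin 3 → ℝ) : gs (gt c f) x ≤ (c / Real.sin c) ^ 2 * gs f x := by
  have h1 : DifferentiableAt ℝ f x := hf.1.differentiable (by simp) x
  have h2 : HasFDerivAt (gt c f) ((Real.sin c)⁻¹ • (Real.cos (c * f x) • (c • fderiv ℝ f x))) x := by
    have h3 := ((h1.hasFDerivAt.const_mul c).sin).mul_const ((Real.sin c)⁻¹)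
    unfold gt
    simp only [div_eq_mul_inv]
    exact h3
  unfold gs
  rw [h2.fderiv, Finset.mul_sum]
  refine Finset.sum_le_sum fun a _ => ?_
  simp only [smul_apply, smul_eq_mul]
  have h4 : Real.cos (c * f x) ^ 2 ≤ 1 := Real.cos_sq_le_one _
  have e : ((Real.sin c)⁻¹ * (Real.cos (c * f x) * (c * fderiv ℝ f x (Pi.single a 1)))) ^ 2 =
      Real.cos (c * f x) ^ 2 * ((c / Real.sin c) ^ 2 * fderiv ℝ f x (Pi.single a 1) ^ 2) := by
    rw [div_eq_mul_inv]
    ring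
  rw [e]
  exact mul_le_of_le_one_left (by positivity) h4

theorem gt_dir {m : ℝ} (hm : 0 < m) {c : ℝ} (hc : 0 < Real.sin c) {w f : (Fin 3 → ℝ) → ℝ}
    (hw : Integrable w) (h0 : ∀ x, 0 ≤ w x) (hf : IsTest f) :
    dirE m w (gt c f) ≤ (c / Real.sin c) ^ 2 * dirE m w f := by
  rw [dirE_split hw (gt_test hc hf), dirE_split hw hf, mul_add]
  obtain ⟨C, hC⟩ := test_bdd hf
  have h1 : ∫ x, gs (gt c f) x ≤ (c / Real.sin c) ^ 2 * ∫ x, gs f x := by
    rw [← integral_const_mul]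
    exact integral_mono (test_gs_int (gt_test hc hf)) ((test_gs_int hf).const_mul _)
      fun x => gt_gs hf x
  have h2 : ∫ x, w x * gt c f x ^ 2 ≤ (c / Real.sin c) ^ 2 * ∫ x, w x * f x ^ 2 := by
    rw [← integral_const_mul]
    refine integral_mono (pot_int hw (gt_test hc hf).1.continuous (gt_bdd hc f))
      ((pot_int hw hf.1.continuous hC).const_mul _) fun x => ?_
    have := mul_le_mul_of_nonneg_left (gt_sq hc f x) (h0 x)
    simp only []
    linarith
  have h3 := mul_le_mul_of_nonneg_left h1 (show 0 ≤ 1 / m by positivity)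
  linarith

theorem kap {c : ℝ} (hc : 0 < c) (hc1 : c ≤ 1) :
    0 < Real.sin c ∧ (c / Real.sin c) ^ 2 ≤ 1 + c ^ 2 := by
  have h1 := Real.sin_gt_sub_cube hc
  have hc2 : c ^ 2 ≤ 1 := pow_le_one₀ hc.le hc1
  have h2 : 0 < c * (1 - c ^ 2 / 6) := mul_pos hc (by linarith)
  have h3 : c * (1 - c ^ 2 / 6) ≤ Real.sin c := by
    have : c * (1 - c ^ 2 / 6) = c - c ^ 3 / 6 := by ring
    rw [this]
    exact h1.le
  have h4 : 0 < Real.sin c := h2.trans_le h3
  refine ⟨h4, ?_⟩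
  rw [div_pow, div_le_iff₀ (by positivity)]
  have h5 : (c * (1 - c ^ 2 / 6)) ^ 2 ≤ Real.sin c ^ 2 := pow_le_pow_left₀ h2.le h3 2
  have h6 : (1 + c ^ 2) * (c * (1 - c ^ 2 / 6)) ^ 2 ≤ (1 + c ^ 2) * Real.sin c ^ 2 :=
    mul_le_mul_of_nonneg_left h5 (by positivity)
  refine le_trans ?_ h6
  have h7 : (1 + c ^ 2) * (c * (1 - c ^ 2 / 6)) ^ 2 =
      c ^ 2 + c ^ 4 * (2 / 3 - 11 / 36 * c ^ 2 + c ^ 4 / 36) := by ring
  rw [h7]
  have h8 : 0 ≤ c ^ 4 * (2 / 3 - 11 / 36 * c ^ 2 + c ^ 4 / 36) := by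
    have : 0 ≤ 2 / 3 - 11 / 36 * c ^ 2 + c ^ 4 / 36 := by
      have : 0 ≤ c ^ 4 := by positivity
      linarith
    positivity
  linarith

/-! ### the cut-off at the core -/

theorem exists_chi {p q : ℝ} (hpq : p < q) : ∃ χ : (Fin 3 → ℝ) → ℝ, ContDiff ℝ ∞ χ ∧
    (∀ x, 0 ≤ χ x) ∧ (∀ x, χ x ≤ 1) ∧ (∀ x, ∑ a, x a ^ 2 ≤ p → χ x = 0) ∧
    (∀ x, q ≤ ∑ a, x a ^ 2 → χ x = 1) ∧
    ∃ C : ℝ, 0 ≤ C ∧ ∀ x : Fin 3 → ℝ, ∀ a : Fin 3, |fderiv ℝ χ x (Pi.single a 1)| ≤ C := by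
  have hsq : ContDiff ℝ ∞ fun x : Fin 3 → ℝ => ∑ a, x a ^ 2 :=
    ContDiff.sum fun a _ => (contDiff_apply ℝ ℝ a).pow 2
  have hd : ContDiff ℝ ∞ fun x : Fin 3 → ℝ =>
      Real.smoothTransition (((∑ a, x a ^ 2) - p) / (q - p)) :=
    Real.smoothTransition.contDiff.comp ((hsq.sub contDiff_const).div_const _)
  have h1 : ∀ x : Fin 3 → ℝ, q ≤ ∑ a, x a ^ 2 →
      Real.smoothTransition (((∑ a, x a ^ 2) - p) / (q - p)) = 1 := by
    intro x hx
    apply Real.smoothTransition.one_of_one_le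
    rw [le_div_iff₀ (by linarith)]
    linarith
  refine ⟨fun x => Real.smoothTransition (((∑ a, x a ^ 2) - p) / (q - p)), hd,
    fun x => Real.smoothTransition.nonneg _, fun x => Real.smoothTransition.le_one _,
    fun x hx => ?_, h1, ?_⟩
  · apply Real.smoothTransition.zero_of_nonpos
    exact div_nonpos_of_nonpos_of_nonneg (by linarith) (by linarith)
  · obtain ⟨C, hC⟩ := (hd.continuous_fderiv (by simp)).bounded_above_of_compact_support
      (HasCompactSupport.intro (isCompact_closedBall (0 : Fin 3 → ℝ) (|q| + 1)) fun x hx => by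
        rw [mem_closedBall_zero_iff, not_le] at hx
        have ho : IsOpen {y : Fin 3 → ℝ | |q| + 1 < ‖y‖} := isOpen_lt continuous_const continuous_norm
        have h : (fun x : Fin 3 → ℝ => Real.smoothTransition (((∑ a, x a ^ 2) - p) / (q - p)))
            =ᶠ[𝓝 x] fun _ => 1 := by
          filter_upwards [ho.mem_nhds hx] with y hy
          apply h1
          obtain ⟨a, ha⟩ : ∃ a, ‖y‖ = ‖y a‖ := by
            obtain ⟨a, -, ha⟩ := Finset.exists_max_image (Finset.univ : Finset (Fin 3))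
              (fun a => ‖y a‖) ⟨0, Finset.mem_univ _⟩
            refine ⟨a, le_antisymm ?_ (norm_le_pi_norm y a)⟩
            exact (pi_norm_le_iff_of_nonneg (norm_nonneg _)).2 fun b => ha b (Finset.mem_univ _)
          have h3 : y a ^ 2 ≤ ∑ a, y a ^ 2 :=
            Finset.single_le_sum (f := fun a => y a ^ 2) (fun _ _ => sq_nonneg _) (Finset.mem_univ a)
          refine le_trans ?_ h3
          rw [← sq_abs, ← Real.norm_eq_abs, ← ha]
          nlinarith [le_abs_self q, abs_nonneg q]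
        rw [h.fderiv_eq]
        simp)
    refine ⟨max C 0, le_max_right _ _, fun x a => ?_⟩
    have h3 := ContinuousLinearMap.le_opNorm (fderiv ℝ (fun x : Fin 3 → ℝ =>
      Real.smoothTransition (((∑ a, x a ^ 2) - p) / (q - p))) x) (Pi.single a 1)
    rw [Pi.norm_single, norm_one, mul_one] at h3
    exact (h3.trans (hC x)).trans (le_max_left _ _)

/-! ### the potentials -/

/-- the Euclidean ball -/
def Bl (R : ℝ) : Set (Fin 3 → ℝ) := {x | √(∑ a, x a ^ 2) < R}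

theorem Bl_open (R : ℝ) : IsOpen (Bl R) :=
  isOpen_lt (Real.continuous_sqrt.comp (continuous_finsetSum _ fun a _ =>
    (continuous_apply a).pow 2)) continuous_const

theorem mem_Bl {R : ℝ} (hR : 0 < R) {x : Fin 3 → ℝ} : x ∈ Bl R ↔ ∑ a, x a ^ 2 < R ^ 2 := by
  have h : x ∈ Bl R ↔ √(∑ a, x a ^ 2) < R := Iff.rfl
  rw [h, Real.sqrt_lt' hR]

theorem Bl_norm {R : ℝ} (hR : 0 < R) {x : Fin 3 → ℝ} (hx : x ∈ Bl R) : ‖x‖ ≤ R := by
  rw [mem_Bl hR] at hx
  refine (pi_norm_le_iff_of_nonneg hR.le).2 fun a => ?_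
  have h3 : x a ^ 2 ≤ ∑ a, x a ^ 2 :=
    Finset.single_le_sum (f := fun a => x a ^ 2) (fun _ _ => sq_nonneg _) (Finset.mem_univ a)
  rw [Real.norm_eq_abs]
  exact abs_le_of_sq_le_sq (by linarith) hR.le

/-- the potential outside the core -/
def uu (R : ℝ) (v : (Fin 3 → ℝ) → ℝ) : (Fin 3 → ℝ) → ℝ := (Bl R)ᶜ.indicator v

/-- the characteristic function of the core -/
def bi (R : ℝ) : (Fin 3 → ℝ) → ℝ := (Bl R).indicator fun _ => 1

/-- the integrable potentials -/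
def wk (R : ℝ) (v : (Fin 3 → ℝ) → ℝ) (k : ℝ) (x : Fin 3 → ℝ) : ℝ := uu R v x + k * bi R x

theorem uu_in {R : ℝ} {v : (Fin 3 → ℝ) → ℝ} {x : Fin 3 → ℝ} (hx : x ∈ Bl R) : uu R v x = 0 :=
  indicator_of_notMem (fun h : x ∈ (Bl R)ᶜ => h hx) v

theorem uu_out {R : ℝ} {v : (Fin 3 → ℝ) → ℝ} {x : Fin 3 → ℝ} (hx : x ∉ Bl R) : uu R v x = v x :=
  indicator_of_mem (show x ∈ (Bl R)ᶜ from hx) v

theorem bi_in {R : ℝ} {x : Fin 3 → ℝ} (hx : x ∈ Bl R) : bi R x = 1 :=
  indicator_of_mem hx _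

theorem bi_out {R : ℝ} {x : Fin 3 → ℝ} (hx : x ∉ Bl R) : bi R x = 0 :=
  indicator_of_notMem hx _

theorem uu_int {R : ℝ} {v : (Fin 3 → ℝ) → ℝ} (hv : Integrable v) : Integrable (uu R v) :=
  hv.indicator (Bl_open R).measurableSet.compl

theorem bi_int {R : ℝ} (hR : 0 < R) : Integrable (bi R) := by
  unfold bi
  rw [integrable_indicator_iff (Bl_open R).measurableSet]
  refine integrableOn_const ?_
  have h : Bl R ⊆ Metric.closedBall 0 R := fun x hx => by
    rw [mem_closedBall_zero_iff]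
    exact Bl_norm hR hx
  exact ((measure_mono h).trans_lt (ProperSpace.isCompact_closedBall _ _).measure_lt_top).ne

theorem wk_int {R : ℝ} (hR : 0 < R) {v : (Fin 3 → ℝ) → ℝ} (hv : Integrable v) (k : ℝ) :
    Integrable (wk R v k) := (uu_int hv).add ((bi_int hR).const_mul k)

theorem wk_cls {R : ℝ} (hR : 0 < R) {v : (Fin 3 → ℝ) → ℝ} (hvm : Measurable v)
    (hv : Integrable v) (h0 : ∀ x, 0 ≤ v x) (he : ∀ x, v (-x) = v x) {k : ℝ} (hk : 0 ≤ k) :
    Cls (hcPot R v) (wk R v k) := by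
  have hB : MeasurableSet (Bl R) := (Bl_open R).measurableSet
  have hneg : ∀ x : Fin 3 → ℝ, -x ∈ Bl R ↔ x ∈ Bl R := by
    intro x
    rw [mem_Bl hR, mem_Bl hR]
    simp
  refine ⟨(hvm.indicator hB.compl).add ((measurable_const.indicator hB).const_mul k),
    wk_int hR hv k, fun x => ?_, fun x => ?_, fun x => ?_⟩
  · unfold wk uu bi
    have h1 : 0 ≤ (Bl R)ᶜ.indicator v x := indicator_nonneg (fun x _ => h0 x) x
    have h2 : 0 ≤ (Bl R).indicator (fun _ => (1 : ℝ)) x := indicator_nonneg (fun _ _ => zero_le_one) x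
    positivity
  · unfold wk
    by_cases hx : x ∈ Bl R
    · have hx' := (hneg x).2 hx
      rw [uu_in hx, uu_in hx', bi_in hx, bi_in hx']
    · have hx' : -x ∉ Bl R := fun h => hx ((hneg x).1 h)
      rw [uu_out hx, uu_out hx', bi_out hx, bi_out hx', he]
  · unfold wk hcPot
    by_cases hx : x ∈ Bl R
    · have hx' : √(∑ a, x a ^ 2) < R := hx
      rw [if_pos hx']
      exact le_top
    · have hx' : ¬ √(∑ a, x a ^ 2) < R := hx
      rw [if_neg hx', uu_out hx, bi_out hx]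
      simp

theorem pot_split {R : ℝ} (hR : 0 < R) {v g : (Fin 3 → ℝ) → ℝ} (hv : Integrable v)
    (hg : Continuous g) {C : ℝ} (hC : ∀ x, |g x| ≤ C) (k : ℝ) :
    ∫ x, wk R v k x * g x ^ 2 = (∫ x, uu R v x * g x ^ 2) + k * ∫ x, bi R x * g x ^ 2 := by
  rw [← integral_const_mul, ← integral_add (pot_int (uu_int hv) hg hC)
    ((pot_int (bi_int hR) hg hC).const_mul k)]
  refine integral_congr_ae (ae_of_all _ fun x => ?_)
  unfold wk
  simp only []
  ring

/-- **vanishing on the core** -/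
theorem core_step {m : ℝ} (hm : 0 < m) {R : ℝ} (hR : 0 < R) {v : (Fin 3 → ℝ) → ℝ}
    (hv : Integrable v) (h0 : ∀ x, 0 ≤ v x) {δ : ℝ} (hδ : 0 < δ) (hδ1 : δ < 1) :
    ∃ A : ℝ, 0 ≤ A ∧ ∀ g : (Fin 3 → ℝ) → ℝ, IsTest g → ∀ M : ℝ, (∀ x, |g x| ≤ M) →
      ∃ F, IsTest F ∧ (∀ x, √(∑ a, x a ^ 2) < R → F x = 0) ∧
        dirE m v F ≤ (1 - δ)⁻¹ * ((1 + δ) * (1 / m * ∫ x, gs g x)) + (∫ x, uu R v x * g x ^ 2) +
          A * (∫ x, bi R x * g x ^ 2) + M ^ 2 * DD (uu R v) (1 - δ)⁻¹ := by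
  obtain ⟨t, ht⟩ : ∃ t, t = 1 - δ := ⟨_, rfl⟩
  have ht0 : 0 < t := by linarith
  have ht1 : t < 1 := by linarith
  rw [← ht]
  obtain ⟨p, hp⟩ : ∃ p, p = (t * R) ^ 2 := ⟨_, rfl⟩
  have hpR : p < R ^ 2 := by
    rw [hp]
    have : t * R < R := by nlinarith
    exact pow_lt_pow_left₀ this (by positivity) two_ne_zero
  obtain ⟨χ, hχs, hχ0, hχ1, hχp, hχq, C, hC0, hC⟩ := exists_chi (show p < (p + R ^ 2) / 2 by linarith)
  have hχout : ∀ x, x ∉ Bl R → χ x = 1 ∧ ∀ a, fderiv ℝ χ x (Pi.single a 1) = 0 := by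
    intro x hx
    rw [mem_Bl hR, not_lt] at hx
    refine ⟨hχq x (by linarith), fun a => ?_⟩
    have ho : IsOpen {y : Fin 3 → ℝ | (p + R ^ 2) / 2 < ∑ a, y a ^ 2} :=
      isOpen_lt continuous_const (continuous_finsetSum _ fun a _ => (continuous_apply a).pow 2)
    have hxo : x ∈ {y : Fin 3 → ℝ | (p + R ^ 2) / 2 < ∑ a, y a ^ 2} := by
      show (p + R ^ 2) / 2 < ∑ a, x a ^ 2
      linarith
    have h : χ =ᶠ[𝓝 x] fun _ => 1 := by
      filter_upwards [ho.mem_nhds hxo] with y hy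
      exact hχq y (le_of_lt hy)
    rw [h.fderiv_eq]
    simp
  refine ⟨t⁻¹ * (1 / m * ((1 + 1 / δ) * (3 * C ^ 2))), by positivity, fun g hg M hM => ?_⟩
  have hM0 : 0 ≤ M := (abs_nonneg _).trans (hM 0)
  -- the function `h = χ g`
  obtain ⟨h, hh⟩ : ∃ h : (Fin 3 → ℝ) → ℝ, h = fun x => χ x * g x := ⟨_, rfl⟩
  have hht : IsTest h := by
    obtain ⟨hgs, r, hr⟩ := hg
    rw [hh]
    refine ⟨hχs.mul hgs, max r R, fun x hx => ?_⟩
    have h1 : x ∉ Bl R := fun hc => by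
      have := Bl_norm hR hc
      have := le_max_right r R
      linarith
    simp only []
    rw [(hχout x h1).1, hr x ((le_max_left _ _).trans_lt hx), one_mul]
  have hhM : ∀ x, |h x| ≤ M := by
    intro x
    rw [hh]
    simp only []
    rw [abs_mul, abs_of_nonneg (hχ0 x)]
    exact (mul_le_of_le_one_left (abs_nonneg _) (hχ1 x)).trans (hM x)
  have hgsh : ∀ x, gs h x ≤ (1 + δ) * gs g x + (1 + 1 / δ) * (3 * C ^ 2) * (bi R x * g x ^ 2) := by
    intro x
    have hder : ∀ a, fderiv ℝ h x (Pi.single a 1) =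
        χ x * fderiv ℝ g x (Pi.single a 1) + g x * fderiv ℝ χ x (Pi.single a 1) := by
      intro a
      have h1 : DifferentiableAt ℝ χ x := hχs.differentiable (by simp) x
      have h2 : DifferentiableAt ℝ g x := hg.1.differentiable (by simp) x
      have h3 := h1.hasFDerivAt.mul h2.hasFDerivAt
      have h4 : HasFDerivAt h (χ x • fderiv ℝ g x + g x • fderiv ℝ χ x) x := by
        rw [hh]
        exact h3
      rw [h4.fderiv]
      rfl
    have key : ∀ a, (fderiv ℝ h x (Pi.single a 1)) ^ 2 ≤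
        (1 + δ) * (fderiv ℝ g x (Pi.single a 1)) ^ 2 + (1 + 1 / δ) * C ^ 2 * (bi R x * g x ^ 2) := by
      intro a
      rw [hder a]
      refine (yng hδ).trans ?_
      have k1 : (χ x * fderiv ℝ g x (Pi.single a 1)) ^ 2 ≤ (fderiv ℝ g x (Pi.single a 1)) ^ 2 := by
        rw [mul_pow]
        exact mul_le_of_le_one_left (sq_nonneg _) (pow_le_one₀ (hχ0 x) (hχ1 x))
      have k2 : (g x * fderiv ℝ χ x (Pi.single a 1)) ^ 2 ≤ C ^ 2 * (bi R x * g x ^ 2) := by
        by_cases hx : x ∈ Bl R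
        · rw [bi_in hx, one_mul, mul_pow, mul_comm]
          refine mul_le_mul_of_nonneg_right ?_ (sq_nonneg _)
          rw [← sq_abs]
          exact pow_le_pow_left₀ (abs_nonneg _) (hC x a) 2
        · rw [(hχout x hx).2 a, bi_out hx]
          simp
      have k3 := mul_le_mul_of_nonneg_left k1 (show (0 : ℝ) ≤ 1 + δ by linarith)
      have k4 := mul_le_mul_of_nonneg_left k2 (show (0 : ℝ) ≤ 1 + 1 / δ by positivity)
      linarith
    unfold gs
    refine (Finset.sum_le_sum fun a _ => key a).trans (le_of_eq ?_)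
    rw [Finset.sum_add_distrib, ← Finset.mul_sum, Finset.sum_const, Finset.card_univ,
      Fintype.card_fin]
    ring
  have hgc : Continuous g := hg.1.continuous
  have hhc : Continuous h := hht.1.continuous
  have i1 : ∫ x, gs h x ≤ (1 + δ) * (∫ x, gs g x) +
      (1 + 1 / δ) * (3 * C ^ 2) * ∫ x, bi R x * g x ^ 2 := by
    rw [← integral_const_mul, ← integral_const_mul,
      ← integral_add ((test_gs_int hg).const_mul _) ((pot_int (bi_int hR) hgc hM).const_mul _)]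
    exact integral_mono (test_gs_int hht)
      (((test_gs_int hg).const_mul _).add ((pot_int (bi_int hR) hgc hM).const_mul _)) hgsh
  have i2 : ∫ x, uu R v x * h x ^ 2 = ∫ x, uu R v x * g x ^ 2 := by
    refine integral_congr_ae (ae_of_all _ fun x => ?_)
    simp only []
    by_cases hx : x ∈ Bl R
    · rw [uu_in hx, zero_mul, zero_mul]
    · rw [hh]
      simp only []
      rw [(hχout x hx).1, one_mul]
  -- the dilation
  refine ⟨fun x => h (t • x), ?_, ?_, ?_⟩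
  · obtain ⟨hhs, r, hr⟩ := hht
    refine ⟨hhs.comp (contDiff_const_smul t), r / t, fun x hx => ?_⟩
    apply hr
    rw [norm_smul, Real.norm_eq_abs, abs_of_pos ht0]
    rw [div_lt_iff₀ ht0] at hx
    linarith
  · intro x hx
    have hx' : x ∈ Bl R := hx
    rw [mem_Bl hR] at hx'
    rw [hh]
    simp only []
    rw [hχp (t • x), zero_mul]
    have : ∑ a, (t • x) a ^ 2 = t ^ 2 * ∑ a, x a ^ 2 := by
      rw [Finset.mul_sum]
      refine Finset.sum_congr rfl fun a _ => ?_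
      rw [Pi.smul_apply, smul_eq_mul]
      ring
    rw [this, hp, mul_pow]
    exact mul_le_mul_of_nonneg_left hx'.le (sq_nonneg _)
  · have hFt : IsTest fun x => h (t • x) := by
      obtain ⟨hhs, r, hr⟩ := hht
      refine ⟨hhs.comp (contDiff_const_smul t), r / t, fun x hx => ?_⟩
      apply hr
      rw [norm_smul, Real.norm_eq_abs, abs_of_pos ht0]
      rw [div_lt_iff₀ ht0] at hx
      linarith
    rw [dirE_split hv hFt]
    have j1 : ∫ x, gs (fun x => h (t • x)) x = t⁻¹ * ∫ x, gs h x := by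
      have e : gs (fun x => h (t • x)) = fun x => t ^ 2 * (gs h) (t • x) := by
        funext x
        unfold gs
        rw [fderiv_comp_smul, Finset.mul_sum]
        refine Finset.sum_congr rfl fun a _ => ?_
        rw [smul_apply, smul_eq_mul]
        ring
      rw [e, integral_const_mul, int_dil ht0 (gs h)]
      field_simp
    have j2 : ∫ x, v x * h (t • x) ^ 2 = ∫ y, t⁻¹ ^ 3 * uu R v (t⁻¹ • y) * h y ^ 2 := by
      have e1 : ∫ x, v x * h (t • x) ^ 2 =
          ∫ x, (fun y => uu R v (t⁻¹ • y) * h y ^ 2) (t • x) := by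
        refine integral_congr_ae (ae_of_all _ fun x => ?_)
        simp only []
        rw [inv_smul_smul₀ ht0.ne']
        by_cases hx : x ∈ Bl R
        · have hz : h (t • x) = 0 := by
            have hx' := hx
            rw [mem_Bl hR] at hx'
            rw [hh]
            simp only []
            rw [hχp (t • x), zero_mul]
            have : ∑ a, (t • x) a ^ 2 = t ^ 2 * ∑ a, x a ^ 2 := by
              rw [Finset.mul_sum]
              refine Finset.sum_congr rfl fun a _ => ?_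
              rw [Pi.smul_apply, smul_eq_mul]
              ring
            rw [this, hp, mul_pow]
            exact mul_le_mul_of_nonneg_left hx'.le (sq_nonneg _)
          rw [hz]
          ring
        · rw [uu_out hx]
      rw [e1, int_dil ht0 (fun y => uu R v (t⁻¹ • y) * h y ^ 2), ← integral_const_mul]
      refine integral_congr_ae (ae_of_all _ fun y => ?_)
      simp only []
      rw [inv_pow]
      ring
    have hsi : 0 < t⁻¹ := inv_pos.2 ht0
    have k1 : Integrable fun y => t⁻¹ ^ 3 * uu R v (t⁻¹ • y) :=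
      (integrable_dil hsi (uu_int hv)).const_mul _
    have j3 : ∫ y, t⁻¹ ^ 3 * uu R v (t⁻¹ • y) * h y ^ 2 ≤
        (∫ x, uu R v x * h x ^ 2) + M ^ 2 * DD (uu R v) t⁻¹ := by
      unfold DD
      have k2 : Integrable fun y => |t⁻¹ ^ 3 * uu R v (t⁻¹ • y) - uu R v y| :=
        (k1.sub (uu_int hv)).abs
      rw [← integral_const_mul, ← integral_add (pot_int (uu_int hv) hhc hhM) (k2.const_mul _)]
      refine integral_mono (pot_int k1 hhc hhM)
        ((pot_int (uu_int hv) hhc hhM).add (k2.const_mul _)) fun y => ?_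
      simp only []
      have l1 : h y ^ 2 ≤ M ^ 2 := by
        rw [← sq_abs]
        exact pow_le_pow_left₀ (abs_nonneg _) (hhM y) 2
      have l2 := le_abs_self (t⁻¹ ^ 3 * uu R v (t⁻¹ • y) - uu R v y)
      have l3 : (t⁻¹ ^ 3 * uu R v (t⁻¹ • y) - uu R v y) * h y ^ 2 ≤
          |t⁻¹ ^ 3 * uu R v (t⁻¹ • y) - uu R v y| * M ^ 2 :=
        (mul_le_mul_of_nonneg_right l2 (sq_nonneg _)).trans
          (mul_le_mul_of_nonneg_left l1 (abs_nonneg _))
      linarith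
    rw [j1, j2]
    rw [i2] at j3
    have i3 := mul_le_mul_of_nonneg_left i1 (show 0 ≤ 1 / m * t⁻¹ by positivity)
    have e5 : 1 / m * (t⁻¹ * ∫ x, gs h x) = 1 / m * t⁻¹ * ∫ x, gs h x := by ring
    rw [e5]
    refine (add_le_add i3 j3).trans (le_of_eq ?_)
    ring

/-- **the main step** -/
theorem main_step {m : ℝ} (hm : 0 < m) {R : ℝ} (hR : 0 < R) {v : (Fin 3 → ℝ) → ℝ}
    (hv : Integrable v) (h0 : ∀ x, 0 ≤ v x) {T : ℝ}
    (hT : ∀ k : ℕ, ∃ f, IsTest f ∧ dirE m (wk R v k) f ≤ T) {η : ℝ} (hη : 0 < η) :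
    ∃ F, IsTest F ∧ (∀ x, √(∑ a, x a ^ 2) < R → F x = 0) ∧ dirE m v F ≤ T + η := by
  have hwk0 : ∀ (k : ℕ) (x : Fin 3 → ℝ), 0 ≤ wk R v k x := by
    intro k x
    unfold wk uu bi
    have h1 : 0 ≤ (Bl R)ᶜ.indicator v x := indicator_nonneg (fun x _ => h0 x) x
    have h2 : 0 ≤ (Bl R).indicator (fun _ => (1 : ℝ)) x := indicator_nonneg (fun _ _ => zero_le_one) x
    positivity
  have hT0 : 0 ≤ T := by
    obtain ⟨f, hf, hfT⟩ := hT 0
    exact (dirE_nn hm (hwk0 0) f).trans hfT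
  -- the choice of `c`
  obtain ⟨c, hc⟩ : ∃ c, c = min 1 (η / (4 * (T + 1))) := ⟨_, rfl⟩
  have hc0 : 0 < c := by rw [hc]; exact lt_min one_pos (by positivity)
  have hc1 : c ≤ 1 := by rw [hc]; exact min_le_left _ _
  obtain ⟨hs, hκ⟩ := kap hc0 hc1
  have hκT : (c / Real.sin c) ^ 2 * T ≤ T + η / 4 := by
    have h1 : c ≤ η / (4 * (T + 1)) := by rw [hc]; exact min_le_right _ _
    have h2 : c * (T + 1) ≤ η / 4 := by
      rw [le_div_iff₀ (by positivity)] at h1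
      linarith
    have h3 : c ^ 2 ≤ c := by nlinarith
    have h4 := mul_le_mul_of_nonneg_right hκ hT0
    nlinarith
  obtain ⟨M, hM⟩ : ∃ M, M = 1 / Real.sin c := ⟨_, rfl⟩
  -- the choice of `δ`
  have hlim1 : Tendsto (fun δ : ℝ => (1 - δ)⁻¹) (𝓝 0) (𝓝 1) := by
    have : ContinuousAt (fun δ : ℝ => (1 - δ)⁻¹) 0 :=
      (continuousAt_const.sub continuousAt_id).inv₀ (by norm_num)
    simpa using this.tendsto
  have hlim2 : Tendsto (fun δ : ℝ => M ^ 2 * DD (uu R v) (1 - δ)⁻¹) (𝓝 0) (𝓝 0) := by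
    have := ((DD_tendsto (uu_int (R := R) hv)).comp hlim1).const_mul (M ^ 2)
    simpa using this
  have hlim3 : Tendsto (fun δ : ℝ => (1 - δ)⁻¹ * (1 + δ) * (T + η / 4)) (𝓝 0) (𝓝 (T + η / 4)) := by
    have h1 : Tendsto (fun δ : ℝ => 1 + δ) (𝓝 0) (𝓝 (1 + 0)) :=
      tendsto_const_nhds.add tendsto_id
    have := (hlim1.mul h1).mul_const (T + η / 4)
    simpa using this
  have ev : ∀ᶠ δ : ℝ in 𝓝 0, M ^ 2 * DD (uu R v) (1 - δ)⁻¹ < η / 8 ∧
      (1 - δ)⁻¹ * (1 + δ) * (T + η / 4) < T + η / 4 + η / 8 ∧ δ < 1 :=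
    (hlim2.eventually (gt_mem_nhds (by positivity))).and
      ((hlim3.eventually (gt_mem_nhds (by linarith))).and (gt_mem_nhds one_pos))
  obtain ⟨δ, ⟨hδ1, hδ2, hδ3⟩, hδ0⟩ : ∃ δ : ℝ, (M ^ 2 * DD (uu R v) (1 - δ)⁻¹ < η / 8 ∧
      (1 - δ)⁻¹ * (1 + δ) * (T + η / 4) < T + η / 4 + η / 8 ∧ δ < 1) ∧ 0 < δ := by
    have h1 : ∀ᶠ δ : ℝ in 𝓝[>] 0, _ := ev.filter_mono nhdsWithin_le_nhds
    exact (h1.and self_mem_nhdsWithin).exists
  obtain ⟨A, hA0, hA⟩ := core_step hm hR hv h0 hδ0 hδ3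
  -- the choice of `k`
  obtain ⟨k, hk⟩ := exists_nat_gt (max 0 (4 * A * (T + η / 4) / η))
  have hk0 : (0 : ℝ) < k := (le_max_left _ _).trans_lt hk
  have hkA : A * ((T + η / 4) / k) ≤ η / 4 := by
    have h1 := (le_max_right _ _).trans_lt hk
    rw [div_lt_iff₀ hη] at h1
    rw [← mul_div_assoc, div_le_iff₀ hk0]
    linarith
  obtain ⟨f, hf, hfT⟩ := hT k
  have hgt := gt_test hs hf
  have hgM : ∀ x, |gt c f x| ≤ M := by rw [hM]; exact gt_bdd hs f
  have hgd := gt_dir hm hs (wk_int hR hv (k : ℝ)) (hwk0 k) hf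
  have hκ0 : 0 ≤ (c / Real.sin c) ^ 2 := sq_nonneg _
  have h1 : dirE m (wk R v k) (gt c f) ≤ T + η / 4 :=
    hgd.trans ((mul_le_mul_of_nonneg_left hfT hκ0).trans hκT)
  rw [dirE_split (wk_int hR hv (k : ℝ)) hgt, pot_split hR hv hgt.1.continuous hgM] at h1
  obtain ⟨F, hF1, hF2, hF3⟩ := hA (gt c f) hgt M hgM
  refine ⟨F, hF1, hF2, hF3.trans ?_⟩
  obtain ⟨G, hG⟩ : ∃ G, G = 1 / m * ∫ x, gs (gt c f) x := ⟨_, rfl⟩
  obtain ⟨U, hU⟩ : ∃ U, U = ∫ x, uu R v x * gt c f x ^ 2 := ⟨_, rfl⟩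
  obtain ⟨b, hb⟩ : ∃ b, b = ∫ x, bi R x * gt c f x ^ 2 := ⟨_, rfl⟩
  have hG0 : 0 ≤ G := by
    rw [hG]
    exact mul_nonneg (by positivity) (integral_nonneg fun x => gs_nonneg _ x)
  have hU0 : 0 ≤ U := by
    rw [hU]
    refine integral_nonneg fun x => ?_
    have : 0 ≤ uu R v x := indicator_nonneg (fun x _ => h0 x) x
    simp only [Pi.zero_apply]
    positivity
  have hb0 : 0 ≤ b := by
    rw [hb]
    refine integral_nonneg fun x => ?_
    have : 0 ≤ bi R x := indicator_nonneg (fun _ _ => zero_le_one) x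
    simp only [Pi.zero_apply]
    positivity
  rw [← hG, ← hU, ← hb] at h1 ⊢
  have hbk : b ≤ (T + η / 4) / k := by
    rw [le_div_iff₀ hk0]
    nlinarith
  have h2 : A * b ≤ η / 4 := (mul_le_mul_of_nonneg_left hbk hA0).trans hkA
  have h3 : G + U ≤ T + η / 4 := by
    have : 0 ≤ (k : ℝ) * b := by positivity
    linarith
  have ht : 0 < 1 - δ := by linarith
  have hs1 : 1 ≤ (1 - δ)⁻¹ := by
    rw [one_le_inv₀ ht]
    linarith
  have hs2 : 1 ≤ (1 - δ)⁻¹ * (1 + δ) := by nlinarith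
  have h4 : (1 - δ)⁻¹ * ((1 + δ) * G) + U ≤ (1 - δ)⁻¹ * (1 + δ) * (T + η / 4) := by
    have h5 : U ≤ (1 - δ)⁻¹ * (1 + δ) * U := le_mul_of_one_le_left hU0 hs2
    have h6 := mul_le_mul_of_nonneg_left h3 (show 0 ≤ (1 - δ)⁻¹ * (1 + δ) by linarith)
    nlinarith
  linarith

/-- **module HC** -/
theorem hc : S_HC := by
  intro m hm R hR v hvm hv h0 he ε hε
  have hbdd : ∀ (w : (Fin 3 → ℝ) → ℝ), (∀ x, 0 ≤ w x) → ∀ R : ℝ,
      BddBelow {E | ∃ f, IsTest f ∧ (∀ x, √(∑ a, x a ^ 2) < R → f x = 0) ∧ E = dirE m w f} := by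
    intro w hw R
    refine ⟨0, ?_⟩
    rintro E ⟨f, -, -, rfl⟩
    exact dirE_nn hm hw f
  rcases hR.eq_or_lt with h | hR0
  · subst h
    refine ⟨v, ⟨hvm, hv, h0, he, fun x => ?_⟩, ?_⟩
    · unfold hcPot
      rw [if_neg (not_lt.2 (Real.sqrt_nonneg _))]
    · have : scatH m 0 v = scatG m v := by
        unfold scatH scatG
        congr 1
        ext E
        constructor
        · rintro ⟨f, hf, -, hE⟩
          exact ⟨f, hf, hE⟩
        · rintro ⟨f, hf, hE⟩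
          exact ⟨f, hf, fun x hx => absurd hx (not_lt.2 (Real.sqrt_nonneg _)), hE⟩
      rw [this]
      linarith
  · by_contra hcon
    push Not at hcon
    obtain ⟨F, hF1, hF2, hF3⟩ := main_step hm hR0 hv h0 (T := scatH m R v - ε) (η := ε / 2)
      (fun k => by
        have h1 := hcon (wk R v k) (wk_cls hR0 hvm hv h0 he (Nat.cast_nonneg k))
        have h2 : scatG m (wk R v k) < scatH m R v - ε := by linarith
        obtain ⟨E, ⟨f, hf, rfl⟩, hE⟩ := exists_lt_of_csInf_lt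
          (s := {E | ∃ f, IsTest f ∧ E = dirE m (wk R v k) f}) ⟨_, _, test_one, rfl⟩ h2
        exact ⟨f, hf, hE.le⟩) (by positivity)
    have h3 : scatH m R v ≤ dirE m v F := csInf_le (hbdd v h0 R) ⟨F, hF1, hF2, rfl⟩
    linarith

end

end Pool.Agent.J6H92.BG
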